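import Pool.Graph.R_pool_sql_team_seeded_2aa45f1a.Q282.UK.Ret
import Pool.Agent.Helper62.EC.Dim
import Pool.Agent.Helper62.EC.Fam
import Pool.Agent.Helper62.DB.Two0
import Pool.Agent.Helper67.SO.Hyp

/-!
# Weight complexes of double covers and of finite étale covers of affine spaces
-/

set_option autoImplicit false

open CategoryTheory Limits AlgebraicGeometry Pool.Agent.Y116.UV Pool.Agent.Z125.UN
  Pool.Agent.Q282.UM Pool.Agent.Q282.UK
open Pool.Agent.Helper62.EC (Cls)
open Pool.Agent.Helper62.DB (Db)

namespace Pool.Agent.Helper95.WC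

universe v u

/-- The hypersurface `F = 0` in the affine space of dimension `N` over `k`. -/
noncomputable def hyper {k : Type} [Field k] {N : ℕ} (F : MvPolynomial (Fin N) k) : Sch k :=
  aff k (MvPolynomial (Fin N) k ⧸ Ideal.span {F})

/-- The double cover `t ^ 2 - t = y F(x)` of the affine space of dimension `N + 1`. -/
noncomputable def dbl {k : Type} [Field k] {N : ℕ} (F : MvPolynomial (Fin N) k) : Sch k :=
  aff k (Db F)

/-- adding one variable -/
noncomputable def addOne (k : Type) [Field k] (N : ℕ) :
    Polynomial (MvPolynomial (Fin N) k) ≃ₐ[k] MvPolynomial (Fin (N + 1)) k :=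
  (MvPolynomial.finSuccEquiv k N).symm

variable {C : Type u} [Category.{v} C] [Preadditive C] [HasZeroObject C] [HasBinaryBiproducts C]
  [HasFiniteBiproducts C] {k : Type} [Field k] {D : Weights k C} {Q : C → Prop} {P : HK C → Prop}
  (hD : IsWeights D) (hP : IsExtension Q P)

include hD hP

theorem cls_all : Cls True fun X : Sch k => AllTwists D P X where
  iso hX e h := all_iso hP (hD.iso hX e) h
  total i j h ht hZ hU n :=
    tri_mid hP (onHK_triangle (D.tw n) (hD.triangle i j h ht)) (hU n) (hZ n)
  opened i j h ht hZ hX n :=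
    tri_left hP (onHK_triangle (D.tw n) (hD.triangle i j h ht)) (hX n) (hZ n)
  closed i j h ht hX hU n :=
    tri_right hP (onHK_triangle (D.tw n) (hD.triangle i j h ht)) (hU n) (hX n)

/-- The affine line. -/
theorem all_line (A : Type) [CommRing A] [Algebra k A] [Algebra.FiniteType k A] :
    AllTwists D P (aff k (Polynomial A)) ↔ AllTwists D P (aff k A) := by
  have h1 : IsOpenImmersion (𝟙 (aff k A) : aff k A ⟶ aff k A).left :=
    inferInstanceAs (IsOpenImmersion (𝟙 (aff k A).left))
  have h2 : Set.range (𝟙 (aff k A) : aff k A ⟶ aff k A).left =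
      {x : PrimeSpectrum A | ∃ l, f1 A 1 l ∉ x.asIdeal} := by
    have h1 : Set.range (𝟙 (aff k A) : aff k A ⟶ aff k A).left = Set.univ := Set.range_id
    have h2 : {x : PrimeSpectrum A | ∃ l, f1 A 1 l ∉ x.asIdeal} = Set.univ := by
      rw [Set.eq_univ_iff_forall]
      intro x
      exact ⟨0, fun h => x.isPrime.ne_top ((Ideal.eq_top_iff_one _).mpr h)⟩
    exact h1.trans h2.symm
  have h3 := hD.bundle A 2 (f1 A 1) (aff k A) (𝟙 _) ⟨h1, h2⟩
  have e1 : Jou (f1 A 1) ≃ₐ[k] Polynomial A :=
    ((jouOne A 1).trans (MvPolynomial.uniqueAlgEquiv A (Fin 1))).restrictScalars k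
  have : Algebra.FiniteType k (Jou (f1 A 1)) :=
    Algebra.FiniteType.trans (S := A) inferInstance inferInstance
  have h5 : AllTwists D P (aff k (Polynomial A)) ↔ AllTwists D P (aff k (Jou (f1 A 1))) :=
    ⟨Pool.Agent.Helper62.EC.iso_alg (cls_all hD hP) e1.symm,
      Pool.Agent.Helper62.EC.iso_alg (cls_all hD hP) e1⟩
  rw [h5]
  exact all_twist hD hP h3

/-- The point. -/
lemma all_pt (h0 : ForVarieties D Q 0) : AllTwists D P (aff k k) := by
  refine all_of_projective hD hP h0 _ (ft_aff True) ?_
  rw [topDim_aff, ringKrullDim_eq_zero_of_field]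
  exact_mod_cast le_rfl

/-- The double cover and the hypersurface. -/
theorem dbl_hyper (h0 : ForVarieties D Q 0) {N : ℕ} (F : MvPolynomial (Fin N) k) :
    AllTwists D P (dbl F) ↔ AllTwists D P (hyper F) := by
  have h1 : AllTwists D P (aff k (Polynomial (MvPolynomial (Fin N) k))) :=
    (all_line hD hP _).2 (all_space hD hP (all_pt hD hP h0) N)
  exact (Pool.Agent.Helper62.DB.dbl_iff (cls_all hD hP) F h1).trans (all_line hD hP _)

/-- Smooth projective schemes of dimension at most `N` and all schemes of dimension at most `N`. -/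
theorem varieties_iff (N : ℕ) : ForVarieties D Q N ↔
    ∀ X : Sch k, FT True X → topologicalKrullDim X.left ≤ N → AllTwists D P X :=
  ⟨all_of_projective hD hP, fun h X hX hN n =>
    of_inZero hP (hD.projective X hX) (h X (ft_projective hX) hN n)⟩

/-- **Hypersurfaces in the affine space of dimension `N + 1`.** -/
theorem varieties_hyper [PerfectField k] (h0 : ForVarieties D Q 0) (N : ℕ) : ForVarieties D Q N ↔
    ∀ F : MvPolynomial (Fin (N + 1)) k, AllTwists D P (hyper F) := by
  have hp := all_pt hD hP h0
  have hB := bnd_all hD hP hp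
  have hc := cls_all hD hP
  rw [varieties_iff hD hP]
  constructor
  · intro h F
    by_cases hF : F = 0
    · subst hF
      have h3 : Ideal.span {(0 : MvPolynomial (Fin (N + 1)) k)} = ⊥ :=
        Ideal.span_singleton_eq_bot.2 rfl
      change AllTwists D P (aff k _)
      rw [h3]
      exact Pool.Agent.Helper62.EC.iso_alg hc (AlgEquiv.quotientBot k _).symm
        (all_space hD hP hp (N + 1))
    · refine h _ (ft_aff True) ?_
      change topologicalKrullDim (aff k _).left ≤ _
      rw [topDim_aff]
      exact dim_quot _ (by rwa [Ne, Ideal.span_singleton_eq_bot])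
  · intro h
    have h2 : ∀ I : Ideal (MvPolynomial (Fin (N + 1)) k),
        AllTwists D P (aff k (MvPolynomial (Fin (N + 1)) k ⧸ I)) := fun I =>
      Pool.Agent.Helper67.SO.of_hyp hc (fun F => h F) I
    exact Pool.Agent.Helper62.EC.of_affine_dim hc fun A _ _ _ hA => closed_to_dim hB h2 A hA

/-- **Double covers of affine spaces.** -/
theorem varieties_dbl [PerfectField k] (h0 : ForVarieties D Q 0) (N : ℕ) : ForVarieties D Q N ↔
    ∀ F : MvPolynomial (Fin (N + 1)) k, AllTwists D P (dbl F) := by
  rw [varieties_hyper hD hP h0]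
  exact forall_congr' fun F => (dbl_hyper hD hP h0 F).symm

/-- From hypersurfaces to all schemes. -/
lemma all_of_hyper (h : ∀ (N : ℕ) (F : MvPolynomial (Fin N) k), AllTwists D P (hyper F)) (X : Sch k)
    (hX : FT True X) : AllTwists D P X := by
  have hc := cls_all hD hP
  refine of_affine' (P := fun X => AllTwists D P X) (sep := True) hc.iso hc.total ?_ X hX
  intro A _ _ hA
  obtain ⟨N, f, hf⟩ := Algebra.FiniteType.iff_quotient_mvPolynomial''.1 hA
  exact Pool.Agent.Helper62.EC.iso_alg hc (Ideal.quotientKerAlgEquivOfSurjective hf)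
    (Pool.Agent.Helper67.SO.of_hyp hc (fun F => h N F) (RingHom.ker f))

/-- From all smooth projective schemes to affine schemes. -/
lemma aff_of_varieties (h : ForAllVarieties D Q) (A : Type) [CommRing A] [Algebra k A]
    [Algebra.FiniteType k A] : AllTwists D P (aff k A) := by
  obtain ⟨N, f, hf⟩ := Algebra.FiniteType.iff_quotient_mvPolynomial''.1
    (inferInstance : Algebra.FiniteType k A)
  refine all_of_projective hD hP (N := N) (fun X hX _ => h X hX) _ (ft_aff True) ?_
  rw [topDim_aff]
  refine (ringKrullDim_le_of_surjective f.toRingHom hf).trans ?_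
  rw [MvPolynomial.ringKrullDim_of_isNoetherianRing, ringKrullDim_eq_zero_of_field, zero_add,
    Nat.card_eq_fintype_card, Fintype.card_fin]

/-- All hypersurfaces. -/
theorem all_hyper : ForAllVarieties D Q ↔
    ∀ (N : ℕ) (F : MvPolynomial (Fin N) k), AllTwists D P (hyper F) :=
  ⟨fun h N F => aff_of_varieties hD hP h _, fun h X hX n =>
    of_inZero hP (hD.projective X hX) (all_of_hyper hD hP h X (ft_projective hX) n)⟩

/-- All double covers. -/
theorem all_dbl (h0 : ForVarieties D Q 0) : ForAllVarieties D Q ↔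
    ∀ (N : ℕ) (F : MvPolynomial (Fin N) k), AllTwists D P (dbl F) := by
  rw [all_hyper hD hP]
  exact forall_congr' fun N => forall_congr' fun F => (dbl_hyper hD hP h0 F).symm

end Pool.Agent.Helper95.WC
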