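import Pool.Agent.Helper95.WC.Main
import Pool.Graph.R_pool_sql_team_seeded_63374d34.N882.UE.Bil

/-!
# Weight complexes of Artin–Schreier covers and of finite étale covers of affine spaces
-/

set_option autoImplicit false

open CategoryTheory Limits AlgebraicGeometry Pool.Agent.Y116.UV Pool.Agent.Z125.UN
  Pool.Agent.Q282.UM Pool.Agent.Q282.UK
open Pool.Agent.Helper62.EC (Cls covS IsCover asS as_e as_iff yf AS Fam)

namespace Pool.Agent.Helper95.WC

universe v u

/-- The weight complex of `X` is a direct summand of the weight complex of the disjoint union of `X` and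
`Y` (for affine schemes). -/
def IsAdditive {C : Type u} [Category.{v} C] [Preadditive C] {k : Type} [Field k]
    (D : Weights k C) : Prop :=
  ∀ (A B : Type) [CommRing A] [Algebra k A] [Algebra.FiniteType k A] [CommRing B] [Algebra k B]
    [Algebra.FiniteType k B], IsSummand (D.W (aff k A)) (D.W (aff k (A × B)))

/-- The Artin–Schreier cover `t ^ p - t = x_0 f(x_1, …, x_m)` of the affine space of dimension
`m + 1`. -/
noncomputable def asf {k : Type} [Field k] (p : ℕ) {m : ℕ} (f : MvPolynomial (Fin m) k) : Sch k :=
  asS p (MvPolynomial.X 0 * MvPolynomial.rename Fin.succ f)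

variable {C : Type u} [Category.{v} C] [Preadditive C] [HasZeroObject C] [HasBinaryBiproducts C]
  [HasFiniteBiproducts C] {k : Type} [Field k] {D : Weights k C} {Q : C → Prop} {P : HK C → Prop}
  (hD : IsWeights D) (hP : IsExtension Q P)

include hD hP

/-- **Finite étale covers of the affine space of dimension `N`.** -/
theorem varieties_cover [PerfectField k] (p : ℕ) [CharP k p] (hp : p ≠ 0) (N : ℕ) :
    ForVarieties D Q N ↔ ∀ F : Polynomial (MvPolynomial (Fin N) k), IsCover F →
      AllTwists D P (covS F) := by
  rw [varieties_iff hD hP, Pool.Agent.Helper62.EC.dim_cover_eq (cls_all hD hP) p hp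
    (fun A _ _ _ h => all_laurent hD hP h) N]
  exact ⟨fun h F hF => h F hF.1 hF.2 hF.3, fun h F h1 h2 h3 => h F ⟨h1, h2, h3⟩⟩

/-- All finite étale covers of affine spaces. -/
theorem all_covers [PerfectField k] (p : ℕ) [CharP k p] (hp : p ≠ 0) :
    ForAllVarieties D Q ↔ ∀ (N : ℕ) (F : Polynomial (MvPolynomial (Fin N) k)), IsCover F →
      AllTwists D P (covS F) := by
  constructor
  · intro h N F hF
    have : Algebra.FiniteType k (AdjoinRoot F) :=
      Algebra.FiniteType.trans (S := MvPolynomial (Fin N) k) inferInstance inferInstance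
    exact aff_of_varieties hD hP h _
  · intro h X hX n
    have h1 := (Pool.Agent.Helper62.EC.all_cover (cls_all hD hP) p hp).2
      (fun m F h1 h2 h3 => h m F ⟨h1, h2, h3⟩) X (ft_projective hX)
    exact of_inZero hP (hD.projective X hX) (h1 n)

omit hD in
lemma all_add (ha : IsAdditive D) (A B : Type) [CommRing A] [Algebra k A] [Algebra.FiniteType k A]
    [CommRing B] [Algebra k B] [Algebra.FiniteType k B] (h : AllTwists D P (aff k (A × B))) :
    AllTwists D P (aff k A) := fun n =>
  hP.summand ((ha A B).map ((D.tw n).mapHomotopyCategory (ComplexShape.up ℤ))) (h n)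

/-- The weight complexes with all twists. -/
lemma fam_all (ha : IsAdditive D) : Fam True fun _ X => AllTwists D P X where
  cls := fun _ => cls_all hD hP
  add := fun _ A B _ _ _ _ _ _ h => all_add hP ha A B h
  line := fun _ A _ _ _ => all_line hD hP A

/-- The Artin–Schreier cover and the hypersurface. -/
theorem as_hyper (p : ℕ) [Fact p.Prime] [CharP k p] (ha : IsAdditive D) (h0 : ForVarieties D Q 0)
    {m : ℕ} (f : MvPolynomial (Fin m) k) : AllTwists D P (asf p f) ↔ AllTwists D P (hyper f) := by
  have hc := cls_all hD hP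
  have h2 : MvPolynomial.finSuccEquiv k m
      (MvPolynomial.X 0 * MvPolynomial.rename Fin.succ f) = yf f := by
    rw [map_mul, MvPolynomial.finSuccEquiv_X_zero]
    have h3 : ((MvPolynomial.finSuccEquiv k m).toAlgHom.comp
        (MvPolynomial.rename (R := k) (Fin.succ : Fin m → Fin (m + 1)))) =
        IsScalarTower.toAlgHom k (MvPolynomial (Fin m) k)
          (Polynomial (MvPolynomial (Fin m) k)) := by
      apply MvPolynomial.algHom_ext
      intro i
      change MvPolynomial.finSuccEquiv k m (MvPolynomial.rename Fin.succ (MvPolynomial.X i)) =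
        Polynomial.C (MvPolynomial.X i)
      rw [MvPolynomial.rename_X, MvPolynomial.finSuccEquiv_X_succ]
    have h4 := DFunLike.congr_fun h3 f
    change MvPolynomial.finSuccEquiv k m (MvPolynomial.rename Fin.succ f) = Polynomial.C f at h4
    rw [h4]
  have h5 : AllTwists D P (asS p (MvPolynomial.X 0 * MvPolynomial.rename Fin.succ f)) ↔
      AllTwists D P (aff k (AS p (yf f))) := as_e p hc (MvPolynomial.finSuccEquiv k m) h2
  have h6 : AllTwists D P (aff k (Polynomial (MvPolynomial (Fin m) k))) :=
    (all_line hD hP _).2 (all_space hD hP (all_pt hD hP h0) m)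
  exact (h5.trans (as_iff p hc f (all_add hP ha) h6)).trans (all_line hD hP _)

/-- Trilinear forms. -/
theorem varieties_tri [PerfectField k] (p : ℕ) [Fact p.Prime] [CharP k p] (ha : IsAdditive D)
    (h0 : ForVarieties D Q 0) (N : ℕ) : ForVarieties D Q N ↔
      ∀ (a b c : ℕ) (t : Fin a → Fin b → Fin c → k), c ≤ N + 2 →
        AllTwists D P (asS p (tri t)) := by
  have hp := all_pt hD hP h0
  rw [varieties_iff hD hP, Pool.Agent.N882.UE.dim_bil (bnd_all hD hP hp) N]
  exact Pool.Agent.Helper62.EC.bil_as p (fam_all hD hP ha) (fun _ => hp) 0 (N + 2)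

end Pool.Agent.Helper95.WC
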